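import Pool.Agent.H73.GMS.Stmts

/-! Row CIS of the board gms. -/

set_option autoImplicit false

namespace GMS

theorem CIS_countable {K : Type*} [Group K] {S : Set K} (hS : S.Finite)
    (hc : Subgroup.closure S = (⊤ : Subgroup K)) : Countable K := by
  have hS' : Countable S := hS.countable
  have h1 : Countable (FreeGroup S) := Quot.mk_surjective.countable
  have h2 : (FreeGroup.lift (fun s : S => (s : K))).range = ⊤ := by
    rw [FreeGroup.range_lift_eq_closure, Subtype.range_coe, hc]
  exact (MonoidHom.range_eq_top.1 h2).countable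

theorem CIS {K : Type*} [Group K] : CISStmt K := by
  intro hK M hM
  obtain ⟨S, hS, hfin⟩ := Group.fg_iff.1 hK
  have hK' : Countable K := CIS_countable hfin hS
  have hQ : Countable (K ⧸ M) := Quot.mk_surjective.countable
  have hSf : Finite S := hfin
  -- the homomorphisms are determined by the values on `S`
  have hH : Countable (K →* K ⧸ M) := by
    have hi : Function.Injective (fun (f : K →* K ⧸ M) (s : S) => f s) := by
      intro f g hfg
      refine MonoidHom.eq_of_eqOn_dense hS fun s hs => ?_
      exact congrFun hfg ⟨s, hs⟩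
    exact hi.countable
  refine ((Set.countable_univ (α := K →* K ⧸ M)).image (fun f => f.ker)).mono ?_
  rintro M' ⟨hM', ⟨e⟩⟩
  refine ⟨e.toMonoidHom.comp (QuotientGroup.mk' M'), Set.mem_univ _, ?_⟩
  ext x
  simp only [MonoidHom.mem_ker, MonoidHom.comp_apply, MulEquiv.coe_toMonoidHom,
    EmbeddingLike.map_eq_one_iff, QuotientGroup.mk'_apply, QuotientGroup.eq_one_iff]

end GMS
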